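import Pool.Agent.Run7.h61.TW.Defs
import Pool.Agent.Run7.h876.MM.Part2

/-!
# Twists by characters of the ideals
-/

set_option autoImplicit false

namespace Run7.h61.HK

open NumberField IsDedekindDomain Polynomial
open Run7.h876.MM (nv SZ)
open Run7.h61.TW (twLSeries twPartial)

section
variable {K : Type} [Field K] [NumberField K]

/-- The L-series of the curve `y² = f(x)` twisted by the function `χ` of the places: the product over the places
of `GoodAt` of `exp(∑ tr(Frob_v^m) χ(v)^m Nv^(-ms) / m)`, that is of `det(1 - Frob_v χ(v) Nv^(-s))⁻¹`. -/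
noncomputable def chiL (f : (𝓞 K)[X]) (χ : HeightOneSpectrum (𝓞 K) → ℂ) (s : ℂ) : ℂ :=
  twLSeries f (fun v m => χ v ^ (m + 1)) s

/-- The part `Nv ≤ Z` of this Euler product. -/
noncomputable def chiPartial (Z : ℕ) (f : (𝓞 K)[X]) (χ : HeightOneSpectrum (𝓞 K) → ℂ) (s : ℂ) : ℂ :=
  twPartial Z f (fun v m => χ v ^ (m + 1)) s

/-- The L-function `∏ (1 - χ(v) Nv^(-s))⁻¹` of the function `χ` of the places. -/
noncomputable def heckeL (χ : HeightOneSpectrum (𝓞 K) → ℂ) (s : ℂ) : ℂ :=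
  ∏' v : HeightOneSpectrum (𝓞 K), (1 - χ v * (nv v : ℂ) ^ (-s))⁻¹

open Classical in
/-- The part `Nv ≤ Z` of this Euler product. -/
noncomputable def heckeZ (Z : ℕ) (χ : HeightOneSpectrum (𝓞 K) → ℂ) (s : ℂ) : ℂ :=
  ∏' v : HeightOneSpectrum (𝓞 K), if nv v ≤ Z then (1 - χ v * (nv v : ℂ) ^ (-s))⁻¹ else 1

/-- The part `Nv ≤ Z` of the Euler product of the zeta function of `K` at a real point. -/
noncomputable def zetaZ (K : Type) [Field K] [NumberField K] (Z : ℕ) (x : ℝ) : ℝ :=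
  ∏ v ∈ SZ K Z, (1 - (nv v : ℝ) ^ (-x))⁻¹

/-- The polynomial `x³ + t₀ x + t₁`. -/
noncomputable def cubic (t : Fin 2 ⊕ Empty → 𝓞 K) : (𝓞 K)[X] := X ^ 3 + (C (t (Sum.inl 0)) * X + C (t (Sum.inl 1)))

/-- The parameters for which the curve `y² = x³ + t₀ x + t₁` is smooth. -/
def smooth : Set (Fin 2 ⊕ Empty → 𝓞 K) := {t | ((cubic t).map (algebraMap (𝓞 K) K)).Separable}

/-- The pairs `(i, j)` with `i < j`. -/
def pairs (n : ℕ) : Finset (Fin n × Fin n) := Finset.univ.filter fun p => p.1 < p.2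

end

end Run7.h61.HK
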