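import Pool.Agent.Run7.h61.HK.Uni
import Pool.Agent.Run7.h61.HK.Defs

/-!
# Twists of elliptic curves by characters of the ideals, uniformly
-/

set_option autoImplicit false
set_option linter.unusedSectionVars false

namespace Run7.h61.HK

open NumberField IsDedekindDomain Finset Filter Topology Polynomial
open Pool.Agent.W401.Cheb (GK IsFrob IsInert)
open Run7.h876.MM (nv kv two_le_nv nv_pos xv norm_xv instFieldKv instFintypeKv instDecKv SZ mem_SZ y0_lt mult_of)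
open Run7.h876.EN
open Run7.h61.TW

/-! ### pairs -/

theorem sum_sq_pairs {n : ℕ} (c : Fin n → ℂ) : (∑ i, c i) ^ 2 = ∑ i, c i ^ 2 + 2 * ∑ p ∈ pairs n, c p.1 * c p.2 := by
  classical
  have h0 : (∑ i, c i) ^ 2 = ∑ p : Fin n × Fin n, c p.1 * c p.2 := by
    rw [sq, Finset.sum_mul_sum, Fintype.sum_prod_type]
  have h1 : ∑ p : Fin n × Fin n, c p.1 * c p.2 = ∑ p ∈ pairs n, c p.1 * c p.2 +
      ∑ p ∈ univ.filter (fun p : Fin n × Fin n => ¬ p.1 < p.2), c p.1 * c p.2 :=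
    (Finset.sum_filter_add_sum_filter_not _ _ _).symm
  have h2 : ∑ p ∈ univ.filter (fun p : Fin n × Fin n => ¬ p.1 < p.2), c p.1 * c p.2 =
      ∑ p ∈ (univ.filter (fun p : Fin n × Fin n => ¬ p.1 < p.2)).filter (fun p => p.2 < p.1), c p.1 * c p.2 +
      ∑ p ∈ (univ.filter (fun p : Fin n × Fin n => ¬ p.1 < p.2)).filter (fun p => ¬ p.2 < p.1), c p.1 * c p.2 :=
    (Finset.sum_filter_add_sum_filter_not _ _ _).symm
  have h3 : ∑ p ∈ (univ.filter (fun p : Fin n × Fin n => ¬ p.1 < p.2)).filter (fun p => p.2 < p.1), c p.1 * c p.2 =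
      ∑ p ∈ pairs n, c p.1 * c p.2 := by
    refine Finset.sum_bij (fun p _ => (p.2, p.1)) (fun p hp => ?_) (fun p _ q _ h => ?_) (fun p hp => ?_) (fun p _ => mul_comm _ _)
    · simp only [Finset.mem_filter, Finset.mem_univ, true_and, pairs] at hp ⊢
      exact hp.2
    · simp only [Prod.mk.injEq] at h
      exact Prod.ext h.2 h.1
    · simp only [Finset.mem_filter, Finset.mem_univ, true_and, pairs] at hp ⊢
      exact ⟨(p.2, p.1), ⟨not_lt.2 hp.le, hp⟩, rfl⟩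
  have h4 : ∑ p ∈ (univ.filter (fun p : Fin n × Fin n => ¬ p.1 < p.2)).filter (fun p => ¬ p.2 < p.1), c p.1 * c p.2 =
      ∑ i, c i ^ 2 := by
    symm
    refine Finset.sum_bij (fun i _ => (i, i)) (fun i _ => ?_) (fun i _ j _ h => ?_) (fun p hp => ?_) (fun i _ => sq _)
    · simp
    · simp only [Prod.mk.injEq] at h
      exact h.1
    · simp only [Finset.mem_filter, Finset.mem_univ, true_and, not_lt] at hp
      exact ⟨p.1, Finset.mem_univ _, Prod.ext rfl (le_antisymm hp.2 hp.1)⟩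
  rw [h0, h1, h2, h3, h4]
  ring

theorem card_pairs (n : ℕ) : (pairs n).card = n.choose 2 := by
  have h := sum_sq_pairs (fun _ : Fin n => (1 : ℂ))
  simp only [Finset.sum_const, Finset.card_univ, Fintype.card_fin, nsmul_eq_mul, mul_one, one_pow] at h
  have h2 : n ^ 2 = n + 2 * (pairs n).card := by exact_mod_cast h
  rw [Nat.choose_two_right]
  rcases n with _ | n
  · simp at h2 ⊢
    omega
  · have h3 : (n + 1) * (n + 1 - 1) = 2 * (pairs (n + 1)).card := by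
      rw [Nat.add_sub_cancel]
      nlinarith
    omega

section
variable {K : Type} [Field K] [NumberField K]

/-! ### one Euler factor -/

theorem exp_geom {z : ℂ} (hz : ‖z‖ < 1) : Complex.exp (∑' m : ℕ, z ^ (m + 1) / ((m : ℂ) + 1)) = (1 - z)⁻¹ := by
  have h := (Complex.hasSum_taylorSeries_neg_log hz)
  have h2 : HasSum (fun m : ℕ => z ^ (m + 1) / ((m : ℂ) + 1)) (-Complex.log (1 - z)) := by
    rw [← hasSum_nat_add_iff' 1] at h
    simp only [Finset.sum_range_one, pow_zero, Nat.cast_zero, div_zero, sub_zero, Nat.cast_add, Nat.cast_one] at h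
    exact h
  rw [h2.tsum_eq, Complex.exp_neg, Complex.exp_log]
  intro h0
  have : z = 1 := by linear_combination -h0
  rw [this, norm_one] at hz
  exact lt_irrefl _ hz

variable {n : ℕ} {χ : Fin n → HeightOneSpectrum (𝓞 K) → ℂ}

theorem norm_chi_xv {c : ℂ} (hc : ‖c‖ ≤ 1) (v : HeightOneSpectrum (𝓞 K)) {w : ℂ} (hw : 0 < w.re) : ‖c * (nv v : ℂ) ^ (-w)‖ < 1 := by
  have h2 : (1 : ℝ) < nv v := by exact_mod_cast (two_le_nv v)
  rw [norm_mul, Complex.norm_natCast_cpow_of_pos (by have := two_le_nv v; omega)]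
  calc ‖c‖ * (nv v : ℝ) ^ (-w).re ≤ 1 * (nv v : ℝ) ^ (-w).re := by gcongr
    _ < 1 := by
      rw [one_mul]
      exact Real.rpow_lt_one_of_one_lt_of_neg h2 (by simpa using hw)

theorem ext2_eq (v : HeightOneSpectrum (𝓞 K)) (m : ℕ) :
    ext2 (fun m => ∑ i, χ i v ^ (m + 1)) m = ∑ p ∈ pairs n, (χ p.1 v * χ p.2 v) ^ (m + 1) := by
  unfold ext2
  rw [sum_sq_pairs, Finset.sum_congr rfl fun (p : Fin n × Fin n) _ => mul_pow (χ p.1 v) (χ p.2 v) (m + 1)]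
  have : ∑ i, χ i v ^ (2 * m + 1 + 1) = ∑ i, (χ i v ^ (m + 1)) ^ 2 := by
    refine Finset.sum_congr rfl fun i _ => ?_
    rw [← pow_mul]
    congr 1
    ring
  beta_reduce
  rw [this]
  ring

theorem factor_pairs (hχ : ∀ i v, ‖χ i v‖ ≤ 1) (v : HeightOneSpectrum (𝓞 K)) {w : ℂ} (hw : 0 < w.re) :
    Complex.exp (∑' m : ℕ, ext2 (fun m => ∑ i, χ i v ^ (m + 1)) m * ((nv v : ℂ) ^ (-w)) ^ (m + 1) / ((m : ℂ) + 1)) =
      ∏ p ∈ pairs n, (1 - (χ p.1 v * χ p.2 v) * (nv v : ℂ) ^ (-w))⁻¹ := by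
  have hp : ∀ p : Fin n × Fin n, ‖χ p.1 v * χ p.2 v‖ ≤ 1 := fun p => by
    rw [norm_mul]
    exact mul_le_one₀ (hχ _ _) (norm_nonneg _) (hχ _ _)
  have hs : ∀ p ∈ pairs n, Summable fun m : ℕ => ((χ p.1 v * χ p.2 v) * (nv v : ℂ) ^ (-w)) ^ (m + 1) / ((m : ℂ) + 1) := by
    intro p _
    have h := (Complex.hasSum_taylorSeries_neg_log (norm_chi_xv (hp p) v hw)).summable
    rw [← summable_nat_add_iff 1] at h
    refine h.congr fun m => ?_
    push_cast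
    rfl
  have e : (fun m : ℕ => ext2 (fun m => ∑ i, χ i v ^ (m + 1)) m * ((nv v : ℂ) ^ (-w)) ^ (m + 1) / ((m : ℂ) + 1)) =
      fun m : ℕ => ∑ p ∈ pairs n, ((χ p.1 v * χ p.2 v) * (nv v : ℂ) ^ (-w)) ^ (m + 1) / ((m : ℂ) + 1) := by
    funext m
    rw [ext2_eq, Finset.sum_mul, Finset.sum_div]
    refine Finset.sum_congr rfl fun p _ => ?_
    rw [mul_pow (χ p.1 v * χ p.2 v)]
  rw [e, Summable.tsum_finsetSum hs, Complex.exp_sum]
  exact Finset.prod_congr rfl fun p _ => exp_geom (norm_chi_xv (hp p) v hw)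

theorem heckeL_hasProd {c : HeightOneSpectrum (𝓞 K) → ℂ} (hc : ∀ v, ‖c v‖ ≤ 1) {w : ℂ} (hw : 1 < w.re) :
    HasProd (fun v : HeightOneSpectrum (𝓞 K) => (1 - c v * (nv v : ℂ) ^ (-w))⁻¹) (heckeL c w) := by
  have h := art_hasProd (a := fun v m => c v ^ (m + 1)) (B := 1) (fun v m => by
    rw [norm_pow]
    exact pow_le_one₀ (norm_nonneg _) (hc v)) hw
  have e : (fun v : HeightOneSpectrum (𝓞 K) => Complex.exp (ell (fun m => c v ^ (m + 1)) (xv v w))) =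
      fun v => (1 - c v * (nv v : ℂ) ^ (-w))⁻¹ := by
    funext v
    rw [← exp_geom (norm_chi_xv (hc v) v (by linarith : 0 < w.re))]
    unfold ell xv
    congr 2
    funext m
    rw [mul_pow]
  have e2 : artin (fun v m => c v ^ (m + 1)) w = heckeL c w := by
    unfold artin heckeL
    rw [e]
  rw [e, e2] at h
  exact h

theorem heckeZ_eq (Z : ℕ) (c : HeightOneSpectrum (𝓞 K) → ℂ) (w : ℂ) :
    heckeZ Z c w = ∏ v ∈ SZ K Z, (1 - c v * (nv v : ℂ) ^ (-w))⁻¹ := by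
  unfold heckeZ
  rw [← tprod_SZ]

theorem eulerL_pairs (hχ : ∀ i v, ‖χ i v‖ ≤ 1) {w : ℂ} (hw : 1 < w.re) :
    eulerL (fun v => ext2 fun m => ∑ i, χ i v ^ (m + 1)) w = ∏ p ∈ pairs n, heckeL (fun v => χ p.1 v * χ p.2 v) w := by
  have hp : ∀ (p : Fin n × Fin n) v, ‖χ p.1 v * χ p.2 v‖ ≤ 1 := fun p v => by
    rw [norm_mul]
    exact mul_le_one₀ (hχ _ _) (norm_nonneg _) (hχ _ _)
  have h := hasProd_prod (s := pairs n) (f := fun (p : Fin n × Fin n) (v : HeightOneSpectrum (𝓞 K)) =>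
    (1 - (χ p.1 v * χ p.2 v) * (nv v : ℂ) ^ (-w))⁻¹)
    (a := fun p => heckeL (fun v => χ p.1 v * χ p.2 v) w) (fun p _ => heckeL_hasProd (hp p) hw)
  rw [← h.tprod_eq]
  unfold eulerL
  congr 1
  funext v
  exact factor_pairs hχ v (by linarith)

theorem eulerZ_pairs (hχ : ∀ i v, ‖χ i v‖ ≤ 1) (Z : ℕ) {w : ℂ} (hw : 0 < w.re) :
    eulerZ Z (fun v => ext2 fun m => ∑ i, χ i v ^ (m + 1)) w = ∏ p ∈ pairs n, heckeZ Z (fun v => χ p.1 v * χ p.2 v) w := by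
  simp only [heckeZ_eq]
  rw [Finset.prod_comm]
  unfold eulerZ
  rw [tprod_SZ]
  exact Finset.prod_congr rfl fun v _ => factor_pairs hχ v hw

/-! ### the theorem -/

variable {ι : Type} [Fintype ι] [DecidableEq ι] (ω : Module.Basis ι ℤ (𝓞 K))

theorem bsum_le (hχ : ∀ i v, ‖χ i v‖ ≤ 1) (v : HeightOneSpectrum (𝓞 K)) (m : ℕ) : ‖∑ i, χ i v ^ (m + 1)‖ ≤ n := by
  refine (norm_sum_le _ _).trans ?_
  calc ∑ i : Fin n, ‖χ i v ^ (m + 1)‖ ≤ ∑ _i : Fin n, (1 : ℝ) := Finset.sum_le_sum fun i _ => by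
        rw [norm_pow]
        exact pow_le_one₀ (norm_nonneg _) (hχ i v)
    _ = n := by simp

variable (K) in
/-- the limit functions -/
noncomputable def GX {n : ℕ} (χ : Fin n → HeightOneSpectrum (𝓞 K) → ℂ) : ℂ → ℂ :=
  GG ((ellFam K).data (R := 0) le_rfl (r := fun _ _ => 0) (fun _ _ => by simp) ellFam_fin) (fun v m => ∑ i, χ i v ^ (m + 1))

theorem GX_diff (hχ : ∀ i v, ‖χ i v‖ ≤ 1) : DifferentiableOn ℂ (GX K χ) {s | 5 / 6 < s.re} := GG_diff _ (bsum_le hχ)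

theorem GX_real (hχ : ∀ i v, ‖χ i v‖ ≤ 1) (hre : ∀ v m, (∑ i, χ i v ^ (m + 1)).im = 0) {x : ℝ} (hx : 5 / 6 < x) :
    ∃ r : ℝ, 0 < r ∧ GX K χ x = r :=
  GG_real _ (bsum_le hχ) (b' := fun v m => (∑ i, χ i v ^ (m + 1)).re) (fun v m => Complex.ext (by simp) (by
    rw [Complex.ofReal_im]
    exact hre v m)) hx

variable (K) in
theorem GX_bdd (n : ℕ) {σ : ℝ} (hσ : 5 / 6 < σ) : ∃ B : ℝ, ∀ χ : Fin n → HeightOneSpectrum (𝓞 K) → ℂ, (∀ i v, ‖χ i v‖ ≤ 1) →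
    ∀ s : ℂ, σ ≤ s.re → ‖GX K χ s‖ ≤ B := by
  obtain ⟨B, hB⟩ := GG_bdd ((ellFam K).data (R := 0) le_rfl (r := fun _ _ => 0) (fun _ _ => by simp) ellFam_fin)
    (β := n) (by positivity) hσ
  exact ⟨B, fun χ hχ s hs => hB _ (bsum_le hχ) s hs⟩

theorem chiL_prod (hχ : ∀ i v, ‖χ i v‖ ≤ 1) {s : ℂ} (hs : 3 / 2 < s.re) (t : Fin 2 ⊕ Empty → 𝓞 K) :
    twLSeries ((ellFam K).member t) (fun v m => ∑ i, χ i v ^ (m + 1)) s = ∏ i, chiL ((ellFam K).member t) (χ i) s := by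
  have h := twLSeries_prod (ellFam K) (b := fun i v m => χ i v ^ (m + 1)) (β := 1) (fun i v m => by
    rw [norm_pow]
    exact pow_le_one₀ (norm_nonneg _) (hχ i v)) zero_le_one (R := 0) le_rfl (r := fun _ _ => 0) (fun _ _ => by simp) ellFam_fin
    (fun _ => 1) hs t
  simp only [Nat.cast_one, one_mul, pow_one] at h
  exact h

theorem chiPartial_prod (hχ : ∀ i v, ‖χ i v‖ ≤ 1) {s : ℂ} (hs : 1 / 2 < s.re) (t : Fin 2 ⊕ Empty → 𝓞 K) (Z : ℕ) :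
    twPartial Z ((ellFam K).member t) (fun v m => ∑ i, χ i v ^ (m + 1)) s = ∏ i, chiPartial Z ((ellFam K).member t) (χ i) s := by
  have h := twPartial_prod (ellFam K) (b := fun i v m => χ i v ^ (m + 1)) (β := 1) (fun i v m => by
    rw [norm_pow]
    exact pow_le_one₀ (norm_nonneg _) (hχ i v)) (fun _ => 1) hs t Z
  simp only [Nat.cast_one, one_mul, pow_one] at h
  exact h

theorem hecke1 (n : ℕ) {σ : ℝ} (hσ : 3 / 2 < σ) {ε : ℝ} (hε : 0 < ε) :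
    ∃ M : ℕ, ∀ H : Fin 2 ⊕ Empty → ℕ, (∀ j, M ≤ H j) → ∀ χ : Fin n → HeightOneSpectrum (𝓞 K) → ℂ, (∀ i v, ‖χ i v‖ ≤ 1) →
      ∀ s : ℂ, σ ≤ s.re →
      ‖mean ω H (ellFam K).smooth (fun t => ∏ i, chiL ((ellFam K).member t) (χ i) s) -
        (∏ p ∈ pairs n, heckeL (fun v => χ p.1 v * χ p.2 v) (2 * s - 1)) * GX K χ s‖ ≤ ε := by
  obtain ⟨M, hM⟩ := main1U (ellFam K) (R := 0) le_rfl (r := fun _ _ => 0) (fun _ _ => by simp) ellFam_fin ω
    (β := n) (by positivity) hσ hε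
  refine ⟨M, fun H hH χ hχ s hs => ?_⟩
  have h := hM H hH _ (bsum_le hχ) s hs
  simp only [chiL_prod hχ (show 3 / 2 < s.re by linarith)] at h
  rw [eulerL_pairs hχ (by simp; linarith), eulerL_zero, inv_one, one_mul] at h
  exact h

theorem hecke2 (n : ℕ) {σ : ℝ} (hσ : 5 / 6 < σ) {θ : ℝ} (hθ : 0 < θ) {ε : ℝ} (hε : 0 < ε) :
    ∃ Z₀ : ℕ, ∀ Z : ℕ, Z₀ ≤ Z → ∀ H : Fin 2 ⊕ Empty → ℕ, (∀ j, Real.exp ((Z : ℝ) ^ (1 + θ)) ≤ H j) →
      ∀ χ : Fin n → HeightOneSpectrum (𝓞 K) → ℂ, (∀ i v, ‖χ i v‖ ≤ 1) → ∀ s : ℂ, σ ≤ s.re →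
      ‖mean ω H (ellFam K).smooth (fun t => ∏ i, chiPartial Z ((ellFam K).member t) (χ i) s) *
        (∏ p ∈ pairs n, heckeZ Z (fun v => χ p.1 v * χ p.2 v) (2 * s - 1))⁻¹ - GX K χ s‖ ≤ ε := by
  obtain ⟨Z₀, hZ₀⟩ := main2U (ellFam K) (R := 0) le_rfl (r := fun _ _ => 0) (fun _ _ => by simp) ellFam_fin ω
    (β := n) (by positivity) hσ hθ hε
  refine ⟨Z₀, fun Z hZ H hH χ hχ s hs => ?_⟩
  have h := hZ₀ Z hZ H hH _ (bsum_le hχ) s hs
  simp only [chiPartial_prod hχ (show 1 / 2 < s.re by linarith)] at h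
  rw [eulerZ_pairs hχ Z (by simp; linarith), eulerZ_zero, one_mul] at h
  exact h

end

end Run7.h61.HK
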