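import Pool.Agent.Run7.h61.HK.Hecke

/-!
# The absolute moments of the twists, uniformly
-/

set_option autoImplicit false
set_option linter.unusedSectionVars false

namespace Run7.h61.HK

open NumberField IsDedekindDomain Finset Filter Topology Polynomial ComplexConjugate
open Run7.h876.MM (nv kv two_le_nv nv_pos xv norm_xv instFieldKv instFintypeKv instDecKv SZ mem_SZ y0_lt mult_of)
open Run7.h876.EN
open Run7.h876.HY (GoodAt frobTrace)
open Run7.h61.TW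

section
variable {K : Type} [Field K] [NumberField K]

/-- the shift of a character -/
noncomputable def sh (χ : HeightOneSpectrum (𝓞 K) → ℂ) (y : ℝ) (v : HeightOneSpectrum (𝓞 K)) : ℂ :=
  χ v * (nv v : ℂ) ^ (-((y : ℂ) * Complex.I))

theorem sh_le {χ : HeightOneSpectrum (𝓞 K) → ℂ} (hχ : ∀ v, ‖χ v‖ ≤ 1) (y : ℝ) (v : HeightOneSpectrum (𝓞 K)) : ‖sh χ y v‖ ≤ 1 := by
  unfold sh
  rw [norm_mul, Complex.norm_natCast_cpow_of_pos (by have := two_le_nv v; omega)]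
  simp only [Complex.neg_re, Complex.mul_re, Complex.ofReal_re, Complex.I_re, mul_zero, Complex.ofReal_im, Complex.I_im,
    mul_one, sub_self, neg_zero, Real.rpow_zero, mul_one]
  exact hχ v

theorem partial_sh (Z : ℕ) (f : (𝓞 K)[X]) (χ : HeightOneSpectrum (𝓞 K) → ℂ) (s : ℂ) :
    chiPartial Z f χ s = chiPartial Z f (sh χ s.im) (s.re : ℂ) := by
  unfold chiPartial
  rw [twPartial_eq, twPartial_eq]
  refine Finset.prod_congr rfl fun v _ => ?_
  unfold twFactor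
  split_ifs with h
  · congr 2
    funext m
    have hnv : (nv v : ℂ) ≠ 0 := by exact_mod_cast (nv_pos v).ne'
    have e : (nv v : ℂ) ^ (-s) = (nv v : ℂ) ^ (-((s.im : ℂ) * Complex.I)) * (nv v : ℂ) ^ (-(s.re : ℂ)) := by
      rw [← Complex.cpow_add _ _ hnv]
      congr 1
      conv_lhs => rw [← Complex.re_add_im s]
      ring
    unfold sh
    beta_reduce
    rw [e, mul_pow, mul_pow]
    ring
  · rfl

theorem conj_partial (Z : ℕ) (f : (𝓞 K)[X]) (χ : HeightOneSpectrum (𝓞 K) → ℂ) (x : ℝ) :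
    conj (chiPartial Z f χ (x : ℂ)) = chiPartial Z f (fun v => conj (χ v)) (x : ℂ) := by
  unfold chiPartial
  rw [twPartial_eq, twPartial_eq, map_prod]
  refine Finset.prod_congr rfl fun v _ => ?_
  unfold twFactor
  split_ifs with h
  · rw [← Complex.exp_conj, Complex.conj_tsum]
    congr 2
    funext m
    have e : (nv v : ℂ) ^ (-(x : ℂ)) = (((nv v : ℝ) ^ (-x) : ℝ) : ℂ) := by
      rw [Complex.ofReal_cpow (nv_pos v).le]
      push_cast
      rfl
    rw [e]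
    simp only [map_div₀, map_mul, map_pow, Complex.conj_ofReal, map_add, map_natCast, map_one, map_intCast]
  · exact map_one _

/-- the characters of the absolute moments -/
noncomputable def two (χ : HeightOneSpectrum (𝓞 K) → ℂ) (k : ℕ) : Fin (k + k) → HeightOneSpectrum (𝓞 K) → ℂ :=
  Fin.append (fun _ => χ) (fun _ v => conj (χ v))

theorem two_le {χ : HeightOneSpectrum (𝓞 K) → ℂ} (hχ : ∀ v, ‖χ v‖ ≤ 1) (k : ℕ) (i : Fin (k + k)) (v : HeightOneSpectrum (𝓞 K)) :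
    ‖two χ k i v‖ ≤ 1 := by
  unfold two
  refine Fin.addCases (fun j => ?_) (fun j => ?_) i
  · rw [Fin.append_left]
    exact hχ v
  · rw [Fin.append_right, RCLike.norm_conj]
    exact hχ v

theorem abs_pow (Z : ℕ) (f : (𝓞 K)[X]) (χ : HeightOneSpectrum (𝓞 K) → ℂ) (s : ℂ) (k : ℕ) :
    ((‖chiPartial Z f χ s‖ ^ (2 * k) : ℝ) : ℂ) = ∏ i, chiPartial Z f (two (sh χ s.im) k i) (s.re : ℂ) := by
  rw [Fin.prod_univ_add]
  unfold two
  simp only [Fin.append_left, Fin.append_right, Finset.prod_const, Finset.card_univ, Fintype.card_fin]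
  rw [← conj_partial, ← partial_sh, ← mul_pow, Complex.mul_conj, Complex.normSq_eq_norm_sq, pow_mul]
  push_cast
  rfl

theorem one_sub_pos (v : HeightOneSpectrum (𝓞 K)) {x : ℝ} (hx : 0 < x) : 0 < 1 - (nv v : ℝ) ^ (-x) := by
  have h2 : (1 : ℝ) < nv v := by exact_mod_cast (two_le_nv v)
  have := Real.rpow_lt_one_of_one_lt_of_neg h2 (show -x < 0 by linarith)
  linarith

theorem heckeZ_le (Z : ℕ) {c : HeightOneSpectrum (𝓞 K) → ℂ} (hc : ∀ v, ‖c v‖ ≤ 1) {w : ℂ} (hw : 0 < w.re) :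
    ‖heckeZ Z c w‖ ≤ zetaZ K Z w.re := by
  rw [heckeZ_eq, norm_prod]
  unfold zetaZ
  refine Finset.prod_le_prod (fun v _ => norm_nonneg _) fun v _ => ?_
  rw [norm_inv]
  refine inv_anti₀ (one_sub_pos v hw) ?_
  have h1 : ‖c v * (nv v : ℂ) ^ (-w)‖ ≤ (nv v : ℝ) ^ (-w.re) := by
    rw [norm_mul, Complex.norm_natCast_cpow_of_pos (by have := two_le_nv v; omega)]
    exact mul_le_of_le_one_left (by positivity) (hc v)
  have h2 := norm_sub_norm_le (1 : ℂ) (c v * (nv v : ℂ) ^ (-w))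
  rw [norm_one] at h2
  linarith

theorem heckeZ_ne (Z : ℕ) {c : HeightOneSpectrum (𝓞 K) → ℂ} (hc : ∀ v, ‖c v‖ ≤ 1) {w : ℂ} (hw : 0 < w.re) : heckeZ Z c w ≠ 0 := by
  rw [heckeZ_eq]
  refine Finset.prod_ne_zero_iff.2 fun v _ => inv_ne_zero fun h => ?_
  have h1 := norm_chi_xv (hc v) v hw
  have h2 : c v * (nv v : ℂ) ^ (-w) = 1 := by linear_combination -h
  rw [h2, norm_one] at h1
  exact lt_irrefl _ h1

variable {ι : Type} [Fintype ι] [DecidableEq ι] (ω : Module.Basis ι ℤ (𝓞 K))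

/-- **The absolute moments.** -/
theorem hecke3 (k : ℕ) {σ : ℝ} (hσ : 5 / 6 < σ) :
    ∃ B : ℝ, ∀ θ : ℝ, 0 < θ → ∃ Z₀ : ℕ, ∀ Z : ℕ, Z₀ ≤ Z → ∀ H : Fin 2 ⊕ Empty → ℕ, (∀ j, Real.exp ((Z : ℝ) ^ (1 + θ)) ≤ H j) →
      ∀ χ : HeightOneSpectrum (𝓞 K) → ℂ, (∀ v, ‖χ v‖ ≤ 1) → ∀ s : ℂ, σ ≤ s.re →
      ‖mean ω H (ellFam K).smooth (fun t => ((‖chiPartial Z ((ellFam K).member t) χ s‖ ^ (2 * k) : ℝ) : ℂ))‖ ≤
        B * zetaZ K Z (2 * s.re - 1) ^ (k * (2 * k - 1)) := by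
  obtain ⟨B, hB⟩ := GX_bdd K (k + k) hσ
  refine ⟨B + 1, fun θ hθ => ?_⟩
  obtain ⟨Z₀, hZ₀⟩ := hecke2 ω (k + k) hσ hθ (ε := 1) one_pos
  refine ⟨Z₀, fun Z hZ H hH χ hχ s hs => ?_⟩
  have hsre : ((s.re : ℂ)).re = s.re := Complex.ofReal_re _
  have h := hZ₀ Z hZ H hH (two (sh χ s.im) k) (two_le (sh_le hχ _) k) (s.re : ℂ) (by rw [hsre]; exact hs)
  have hg := hB (two (sh χ s.im) k) (two_le (sh_le hχ _) k) (s.re : ℂ) (by rw [hsre]; exact hs)
  simp only [abs_pow]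
  obtain ⟨m, hm⟩ : ∃ m, m = mean ω H (ellFam K).smooth (fun t => ∏ i, chiPartial Z ((ellFam K).member t) (two (sh χ s.im) k i) (s.re : ℂ)) := ⟨_, rfl⟩
  rw [← hm] at h ⊢
  have hwre : (2 * (s.re : ℂ) - 1).re = 2 * s.re - 1 := by simp
  have hw : 0 < (2 * (s.re : ℂ) - 1).re := by rw [hwre]; linarith
  have hp : ∀ (p : Fin (k + k) × Fin (k + k)) v, ‖two (sh χ s.im) k p.1 v * two (sh χ s.im) k p.2 v‖ ≤ 1 := fun p v => by
    rw [norm_mul]
    exact mul_le_one₀ (two_le (sh_le hχ _) k _ _) (norm_nonneg _) (two_le (sh_le hχ _) k _ _)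
  obtain ⟨P, hP⟩ : ∃ P, P = ∏ p ∈ pairs (k + k), heckeZ Z (fun v => two (sh χ s.im) k p.1 v * two (sh χ s.im) k p.2 v) (2 * (s.re : ℂ) - 1) := ⟨_, rfl⟩
  rw [← hP] at h
  have hPne : P ≠ 0 := by
    rw [hP]
    exact Finset.prod_ne_zero_iff.2 fun p _ => heckeZ_ne Z (hp p) hw
  have hPle : ‖P‖ ≤ zetaZ K Z (2 * s.re - 1) ^ (k * (2 * k - 1)) := by
    rw [hP, norm_prod]
    have e : k * (2 * k - 1) = (pairs (k + k)).card := by
      rw [card_pairs, Nat.choose_two_right, ← two_mul]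
      rw [show 2 * k * (2 * k - 1) = 2 * (k * (2 * k - 1)) by ring, Nat.mul_div_cancel_left _ (by norm_num)]
    rw [e, ← hwre]
    refine (Finset.prod_le_prod (fun _ _ => norm_nonneg _) fun p _ => heckeZ_le Z (hp p) hw).trans (le_of_eq ?_)
    rw [Finset.prod_const]
  have h1 : ‖m * P⁻¹‖ ≤ B + 1 := by
    have e : m * P⁻¹ = (m * P⁻¹ - GX K (two (sh χ s.im) k) (s.re : ℂ)) + GX K (two (sh χ s.im) k) (s.re : ℂ) := by ring
    rw [e]
    refine (norm_add_le _ _).trans ?_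
    linarith
  have hB0 : 0 ≤ B + 1 := (norm_nonneg _).trans h1
  have e2 : m = m * P⁻¹ * P := by rw [mul_assoc, inv_mul_cancel₀ hPne, mul_one]
  rw [e2, norm_mul]
  exact mul_le_mul h1 hPle (norm_nonneg _) hB0

/-! ### the family -/

theorem member_eq (t : Fin 2 ⊕ Empty → 𝓞 K) : (ellFam K).member t = cubic t := ellFam_member t

theorem smooth_eq : (ellFam K).smooth = (smooth : Set (Fin 2 ⊕ Empty → 𝓞 K)) := by
  unfold TFam.smooth smooth
  simp only [member_eq]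

end

end Run7.h61.HK
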