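import Pool.Agent.Run7.h61.TW.AppM

/-!
# The twisted moments, uniformly in the twist
-/

set_option autoImplicit false
set_option linter.unusedSectionVars false

namespace Run7.h61.HK

open NumberField IsDedekindDomain Finset Filter Topology Polynomial
open Pool.Agent.W401.Cheb (GK IsFrob IsInert)
open Run7.h876.MM (nv kv two_le_nv nv_pos avg card_kv xv norm_xv instFieldKv instFintypeKv instDecKv norm_avg_le avg_sub'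
  tail_bound tail_small mult_of tprod_ne tprod_le_exp xv_real SZ mem_SZ nv_rpow_le y0_lt)
open Run7.h876.EN
open Run7.h61.JL (avg_exp_close BE)
open Run7.h61.TW

section
variable {K : Type} [Field K] [NumberField K] {J : Type} [Fintype J] [DecidableEq J]
variable (𝓓 : TD K J) {β : ℝ}

open Classical in
/-- **The majorant**, uniformly in the twist. -/
theorem exists_majU (hβ0 : 0 ≤ β) {σ : ℝ} (hσ : 5 / 6 < σ) :
    ∃ u : HeightOneSpectrum (𝓞 K) → ℝ, Summable u ∧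
      ∀ b : HeightOneSpectrum (𝓞 K) → ℕ → ℂ, (∀ v m, ‖b v m‖ ≤ β) →
      ∀ (v : HeightOneSpectrum (𝓞 K)) (s : ℂ), σ ≤ s.re → ‖hv 𝓓 b v s - 1‖ ≤ u v := by
  have hσ2 : 1 / 2 < σ := by linarith
  obtain ⟨D₀, hD₀⟩ : ∃ D₀ : ℝ, D₀ = Real.exp (EB 𝓓 β σ) + 1 := ⟨_, rfl⟩
  obtain ⟨B₃, hB₃⟩ : ∃ B₃ : ℝ, B₃ = BE (EB 𝓓 β σ) ((𝓓.D + 𝓓.R) * β) ((𝓓.D + 𝓓.R) * β + (β ^ 2 + β) / 2) := ⟨_, rfl⟩
  obtain ⟨u, hu⟩ : ∃ u : HeightOneSpectrum (𝓞 K) → ℝ, u = fun v => β * 𝓓.C * (nv v : ℝ) ^ (-(1 / 2 + σ)) +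
    C2 𝓓 β * (nv v : ℝ) ^ (-(2 * σ - 1 / 2)) + B₃ * (nv v : ℝ) ^ (-(3 * σ - 3 / 2)) := ⟨_, rfl⟩
  have hsum : Summable u := by
    rw [hu]
    exact (((Pool.Agent.H921R2.TatePole.nm_summable (K := K) (x := 1 / 2 + σ) (by linarith)).mul_left _).add
        ((Pool.Agent.H921R2.TatePole.nm_summable (K := K) (x := 2 * σ - 1 / 2) (by linarith)).mul_left _)).add
        ((Pool.Agent.H921R2.TatePole.nm_summable (K := K) (x := 3 * σ - 3 / 2) (by linarith)).mul_left _)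
  refine ⟨fun v => |u v| + (if v ∈ 𝓓.B then D₀ else 0), hsum.abs.add ?_, fun b hβ v s hs => ?_⟩
  · refine summable_of_hasFiniteSupport (𝓓.B_fin.subset fun v hv => ?_)
    by_contra hc
    apply hv
    exact if_neg hc
  · by_cases hvB : v ∈ 𝓓.B
    · simp only [if_pos hvB]
      have h1 : ‖hv 𝓓 b v s - 1‖ ≤ D₀ := by
        unfold Run7.h61.TW.hv
        refine (norm_sub_le _ _).trans ?_
        rw [norm_one, hD₀]
        refine add_le_add_left ?_ _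
        exact norm_avg_le _ _ _ (Real.exp_pos _).le fun t _ => exp_zz_le 𝓓 hβ hσ2 v hs t
      have h2 := abs_nonneg (u v)
      linarith
    · simp only [if_neg hvB, add_zero]
      refine (hv_close 𝓓 hβ hσ2 v hvB hs).trans (le_trans (le_of_eq ?_) (le_abs_self _))
      have hnv := nv_pos v
      rw [hu, ← hB₃]
      have e1 : (nv v : ℝ) ^ (-(1 / 2 + σ)) = (nv v : ℝ) ^ (1 / 2 - σ) / nv v := by
        rw [show -(1 / 2 + σ) = (1 / 2 - σ) - 1 by ring, Real.rpow_sub hnv, Real.rpow_one]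
      have e2 : (nv v : ℝ) ^ (-(2 * σ - 1 / 2)) = ((nv v : ℝ) ^ (1 / 2 - σ)) ^ 2 / Real.sqrt (nv v) := by
        rw [← Real.rpow_natCast ((nv v : ℝ) ^ (1 / 2 - σ)) 2, ← Real.rpow_mul hnv.le, Real.sqrt_eq_rpow, ← Real.rpow_sub hnv]
        congr 1
        push_cast
        ring
      have e3 : (nv v : ℝ) ^ (-(3 * σ - 3 / 2)) = ((nv v : ℝ) ^ (1 / 2 - σ)) ^ 3 := by
        rw [← Real.rpow_natCast ((nv v : ℝ) ^ (1 / 2 - σ)) 3, ← Real.rpow_mul hnv.le]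
        congr 1
        push_cast
        ring
      simp only [e1, e2, e3]
      ring

/-- **The limit functions are bounded uniformly.** -/
theorem GG_bdd (hβ0 : 0 ≤ β) {σ : ℝ} (hσ : 5 / 6 < σ) : ∃ B : ℝ, ∀ b : HeightOneSpectrum (𝓞 K) → ℕ → ℂ,
    (∀ v m, ‖b v m‖ ≤ β) → ∀ s : ℂ, σ ≤ s.re → ‖GG 𝓓 b s‖ ≤ B := by
  obtain ⟨u, hu, hub⟩ := exists_majU 𝓓 hβ0 hσ
  exact ⟨Real.exp (∑' v, u v), fun b hβ s hs => tprod_le_exp hu fun v => hub b hβ v s hs⟩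

variable {ι : Type} [Fintype ι] [DecidableEq ι] (ω : Module.Basis ι ℤ (𝓞 K))

theorem part1U (hβ0 : 0 ≤ β) {G : Set (J → 𝓞 K)} {Cb : ℝ} (hG : Thin ω G Cb) {σ : ℝ} (hσ : 3 / 2 < σ)
    {ε : ℝ} (hε : 0 < ε) :
    ∃ M : ℕ, ∀ H : J → ℕ, (∀ j, M ≤ H j) → ∀ b : HeightOneSpectrum (𝓞 K) → ℕ → ℂ, (∀ v m, ‖b v m‖ ≤ β) → ∀ s : ℂ, σ ≤ s.re →
      ‖mean ω H G (fun t => ∏' v, Complex.exp (lf 𝓓 b v s (rd v t))) -
        (artin (rb 𝓓 b) s)⁻¹ * artin (fun v => cc (b v)) (2 * s - 1) * GG 𝓓 b s‖ ≤ ε := by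
  have hD := 𝓓.D_nonneg
  have hy := y0_lt (σ := σ) (by linarith)
  obtain ⟨u, hu⟩ : ∃ u : HeightOneSpectrum (𝓞 K) → ℝ, u = fun v => (𝓓.D * β * (1 - 2 ^ (1 / 2 - σ))⁻¹) *
    Real.exp (𝓓.D * β * (1 - 2 ^ (1 / 2 - σ))⁻¹) * (nv v : ℝ) ^ (1 / 2 - σ) := ⟨_, rfl⟩
  have hus : Summable u := by
    rw [hu]
    have := (Pool.Agent.H921R2.TatePole.nm_summable (K := K) (x := σ - 1 / 2) (by linarith)).mul_left
      ((𝓓.D * β * (1 - 2 ^ (1 / 2 - σ))⁻¹) * Real.exp (𝓓.D * β * (1 - 2 ^ (1 / 2 - σ))⁻¹))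
    refine this.congr fun v => ?_
    rw [Run7.h876.MM.nv_eq]
    congr 2
    ring
  obtain ⟨M, hM⟩ := meanA (P := {p : (HeightOneSpectrum (𝓞 K) → ℕ → ℂ) × ℂ // (∀ v m, ‖p.1 v m‖ ≤ β) ∧ σ ≤ p.2.re}) ω hG u hus
    (fun v p t => Complex.exp (lf 𝓓 p.1.1 v p.1.2 t)) (by
    intro v p t
    obtain ⟨h1, h2, h3, h4⟩ := basic (σ := σ) (by linarith) v p.2.2
    have h2nv : (2 : ℝ) ≤ nv v := by exact_mod_cast two_le_nv v
    rw [hu]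
    exact exp_ell_sub (by positivity) (Real.sqrt_nonneg _) (ab_bound 𝓓 p.2.1 v t) h1
      (Real.rpow_le_rpow_of_nonpos (by norm_num) h2nv (by linarith)) hy) hε
  refine ⟨M, fun H hH b hβ s hs => ?_⟩
  have h := hM H hH ⟨(b, s), hβ, hs⟩
  simp only at h
  rw [tprod_mean 𝓓 hβ (by linarith)] at h
  exact h

theorem part2U (hβ0 : 0 ≤ β) {G : Set (J → 𝓞 K)} {Cb : ℝ} (hCb : 0 ≤ Cb) (hG : Thin ω G Cb) {σ : ℝ} (hσ : 5 / 6 < σ)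
    {θ : ℝ} (hθ : 0 < θ) {ε : ℝ} (hε : 0 < ε) :
    ∃ Z₀ : ℕ, ∀ Z : ℕ, Z₀ ≤ Z → ∀ H : J → ℕ, (∀ j, Real.exp ((Z : ℝ) ^ (1 + θ)) ≤ H j) →
      ∀ b : HeightOneSpectrum (𝓞 K) → ℕ → ℂ, (∀ v m, ‖b v m‖ ≤ β) → ∀ s : ℂ, σ ≤ s.re →
      ‖mean ω H G (fun t => ∏ v ∈ SZ K Z, Complex.exp (lf 𝓓 b v s (rd v t))) *
        (artinZ Z (rb 𝓓 b) s * (artinZ Z (fun v => cc (b v)) (2 * s - 1))⁻¹) - GG 𝓓 b s‖ ≤ ε := by
  obtain ⟨u, hu, hub⟩ := exists_majU 𝓓 hβ0 hσ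
  obtain ⟨Z₀, hZ₀⟩ := meanB (P := {p : (HeightOneSpectrum (𝓞 K) → ℕ → ℂ) × ℂ // (∀ v m, ‖p.1 v m‖ ≤ β) ∧ σ ≤ p.2.re}) ω hCb hG u hu
    (fun v p t => Complex.exp (zz 𝓓 p.1.1 v p.1.2 t)) (D := Real.exp (EB 𝓓 β σ))
    (Real.one_le_exp (EB_nonneg 𝓓 hβ0 (by linarith))) (fun v p t => exp_zz_le 𝓓 p.2.1 (by linarith) v p.2.2 t)
    (fun v p => hub p.1.1 p.2.1 v p.1.2 p.2.2) hθ hε
  refine ⟨Z₀, fun Z hZ H hH b hβ s hs => ?_⟩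
  have h := hZ₀ Z hZ H hH ⟨(b, s), hβ, hs⟩
  have e1 : (fun t : J → 𝓞 K => ∏ v ∈ SZ K Z, Complex.exp (zz 𝓓 b v s (rd v t))) =
      fun t => (∏ v ∈ SZ K Z, Complex.exp (lf 𝓓 b v s (rd v t))) *
        (artinZ Z (rb 𝓓 b) s * (artinZ Z (fun v => cc (b v)) (2 * s - 1))⁻¹) := by
    funext t
    unfold artinZ
    rw [← Finset.prod_inv_distrib, ← Finset.prod_mul_distrib, ← Finset.prod_mul_distrib]
    refine Finset.prod_congr rfl fun v _ => ?_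
    rw [← Complex.exp_neg, ← Complex.exp_add, ← Complex.exp_add, xv_two]
    congr 1
    unfold zz lr lc
    have : rb 𝓓 b v = fun m => (𝓓.r v m : ℂ) * b v m := rfl
    rw [this]
    ring
  simp only at h
  rw [e1, Run7.h876.GN.mean_mul_const] at h
  exact h

end

section
variable {K : Type} [Field K] [NumberField K]
variable {J : Type} [Fintype J] [DecidableEq J] (𝓕 : TFam K J)
  {R : ℝ} (hR : 0 ≤ R) {r : HeightOneSpectrum (𝓞 K) → ℕ → ℝ} (hr : ∀ v m, |r v m| ≤ R)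
  (hfin : {v | ¬ ∀ σ, IsFrob v σ → r v 0 = 𝓕.trV σ}.Finite)
variable {ι : Type} [Fintype ι] [DecidableEq ι] (ω : Module.Basis ι ℤ (𝓞 K)) {β : ℝ}

theorem main1U (hβ0 : 0 ≤ β) {σ : ℝ} (hσ : 3 / 2 < σ) {ε : ℝ} (hε : 0 < ε) :
    ∃ M : ℕ, ∀ H : Fin 2 ⊕ J → ℕ, (∀ j, M ≤ H j) → ∀ b : HeightOneSpectrum (𝓞 K) → ℕ → ℂ, (∀ v m, ‖b v m‖ ≤ β) →
      ∀ s : ℂ, σ ≤ s.re →
      ‖mean ω H 𝓕.smooth (fun t => twLSeries (𝓕.member t) b s) -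
        (eulerL (fun v m => (r v m : ℂ) * b v m) s)⁻¹ * eulerL (fun v => ext2 (b v)) (2 * s - 1) *
          GG (𝓕.data hR hr hfin) b s‖ ≤ ε := by
  obtain ⟨M, hM⟩ := part1U (𝓕.data hR hr hfin) ω hβ0 (𝓕.thin_smooth ω) hσ hε
  refine ⟨M, fun H hH b hβ s hs => ?_⟩
  have h := hM H hH b hβ s hs
  have e : (fun t => twLSeries (𝓕.member t) b s) =
      fun t => ∏' v, Complex.exp (lf (𝓕.data hR hr hfin) b v s (rd v t)) := by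
    funext t
    unfold twLSeries
    congr 1
    funext v
    exact factor_eq 𝓕 hR hr hfin b t v s
  rw [e]
  exact h

theorem main2U (hβ0 : 0 ≤ β) {σ : ℝ} (hσ : 5 / 6 < σ) {θ : ℝ} (hθ : 0 < θ) {ε : ℝ} (hε : 0 < ε) :
    ∃ Z₀ : ℕ, ∀ Z : ℕ, Z₀ ≤ Z → ∀ H : Fin 2 ⊕ J → ℕ, (∀ j, Real.exp ((Z : ℝ) ^ (1 + θ)) ≤ H j) →
      ∀ b : HeightOneSpectrum (𝓞 K) → ℕ → ℂ, (∀ v m, ‖b v m‖ ≤ β) → ∀ s : ℂ, σ ≤ s.re →
      ‖mean ω H 𝓕.smooth (fun t => twPartial Z (𝓕.member t) b s) *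
        (eulerZ Z (fun v m => (r v m : ℂ) * b v m) s * (eulerZ Z (fun v => ext2 (b v)) (2 * s - 1))⁻¹) -
          GG (𝓕.data hR hr hfin) b s‖ ≤ ε := by
  obtain ⟨Z₀, hZ₀⟩ := part2U (𝓕.data hR hr hfin) ω hβ0 (by positivity) (𝓕.thin_smooth ω) hσ hθ hε
  refine ⟨Z₀, fun Z hZ H hH b hβ s hs => ?_⟩
  have h := hZ₀ Z hZ H hH b hβ s hs
  have e : (fun t => twPartial Z (𝓕.member t) b s) =
      fun t => ∏ v ∈ SZ K Z, Complex.exp (lf (𝓕.data hR hr hfin) b v s (rd v t)) := by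
    funext t
    rw [twPartial_eq]
    refine Finset.prod_congr rfl fun v _ => ?_
    exact factor_eq 𝓕 hR hr hfin b t v s
  rw [e, eulerZ_eq, eulerZ_eq]
  exact h

end

end Run7.h61.HK
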